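import Pool.Agent.H.MP_64b69f.B

set_option autoImplicit false
open Set Topology

namespace Pool.Agent.Results.MP_0df558_gt.Counter

def WeakSigmaPF {Z : Type} (A : Set (Set Z)) : Prop :=
  ∃ B : ℕ → Set (Set Z), (∀ n, B n ⊆ A) ∧ ∀ x, A = ⋃ n ∈ {n | {s ∈ B n | x ∈ s}.Finite}, B n

def LindelofSigma (Z : Type) [TopologicalSpace Z] : Prop :=
  ∃ N C : Set (Set Z), N.Countable ∧ ⋃₀ C = univ ∧ ∀ K ∈ C, IsCompact K ∧
    ∀ U, IsOpen U → K ⊆ U → ∃ s ∈ N, K ⊆ s ∧ s ⊆ U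

theorem result : ∃ (X : Type) (_ : TopologicalSpace X), CompactSpace X ∧ T2Space X ∧
    LindelofSigma X ∧ ¬∃ 𝒰 : Set (Set {h : X → ℝ // Continuous h}),
      (∀ U ∈ 𝒰, ∃ g : {h : X → ℝ // Continuous h} → ℝ, Continuous g ∧ U = {z | g z ≠ 0}) ∧
      (∀ z w, z ≠ w → ∃ U ∈ 𝒰, (z ∈ U ∧ w ∉ U) ∨ (w ∈ U ∧ z ∉ U)) ∧ WeakSigmaPF 𝒰 := by
  obtain ⟨X, _, _, _, -, h⟩ := H.MP_64b69f.main
  refine ⟨X, inferInstance, inferInstance, inferInstance, ⟨{univ}, {univ}, countable_singleton _,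
    sUnion_singleton _, forall_eq.2 ⟨isCompact_univ, fun U _ k => ⟨_, rfl, subset_rfl, k⟩⟩⟩,
      fun ⟨𝒰, u1, u2, B, _, b⟩ => h 𝒰 Subtype.val (fun t => ?_) (fun f => ?_) fun f g k =>
        by_contra fun e => ?_⟩
  · obtain ⟨g, g1, g2⟩ := u1 _ t.2
    exact g2 ▸ isOpen_ne_fun g1 continuous_const
  · refine (((to_countable {n | {s ∈ B n | f ∈ s}.Finite}).biUnion fun n e =>
      e.countable).preimage Subtype.val_injective).mono fun t e => ?_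
    obtain ⟨n, n1, n2⟩ := mem_iUnion₂.1 ((b f).le t.2)
    exact mem_biUnion n1 ⟨n2, e⟩
  · obtain ⟨U, a, c | c⟩ := u2 f g e
    exacts [c.2 ((k ⟨U, a⟩).1 c.1), c.2 ((k ⟨U, a⟩).2 c.1)]

end Pool.Agent.Results.MP_0df558_gt.Counter
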